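import Mathlib
import Pool.Agent.H33.QH

set_option autoImplicit false

namespace Pool.Agent.Results.MP_c4712b_ag.TwoNodes3

open MvPolynomial Topology

/-- Singular point of the reduced surface X in three-space: a point of X at which the differential
of every polynomial vanishing on X is zero. -/
def IsSing (X : Set (Fin 3 → ℂ)) (a : Fin 3 → ℂ) : Prop :=
  a ∈ X ∧ ∀ f : MvPolynomial (Fin 3) ℂ, (∀ x ∈ X, eval x f = 0) → ∀ j, eval a (pderiv j f) = 0

/-- Quasihomogeneous with positive integer weights. -/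
def QuasiHom (q : MvPolynomial (Fin 3) ℂ) : Prop :=
  ∃ w : Fin 3 → ℕ, (∀ i, 0 < w i) ∧ ∃ d : ℤ, ∀ t : ℂ, t ≠ 0 → ∀ x : Fin 3 → ℂ,
    eval (fun i => t ^ w i * x i) q = t ^ d * eval x q

open Pool.Agent.H33.QH in
lemma sing_iff (a : Fin 3 → ℂ) :
    IsSing {x | eval x P = 0} a ↔ a = ![0, 0, 0] ∨ a = ![1, 0, 0] := by
  rw [← sing_P]
  constructor
  · rintro ⟨h1, h2⟩
    exact ⟨h1, h2 P fun x hx => hx⟩
  · rintro ⟨h1, h2⟩
    refine ⟨h1, fun f hf j => ?_⟩
    have hp : (Ideal.span {P}).IsPrime :=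
      (Ideal.span_singleton_prime irred_P.ne_zero).2 irred_P.prime
    have h3 : f ∈ vanishingIdeal ℂ (zeroLocus ℂ (Ideal.span {P})) := by
      rw [mem_vanishingIdeal_iff]
      intro x hx
      exact hf x ((mem_zeroLocus_iff.1 hx) _ (Ideal.mem_span_singleton_self _))
    rw [vanishingIdeal_zeroLocus_eq_radical, hp.radical] at h3
    obtain ⟨b, rfl⟩ := Ideal.mem_span_singleton.1 h3
    simp [h1, h2 j]

theorem result :
    ∃ p : MvPolynomial (Fin 3) ℂ, Irreducible p ∧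
      ContractibleSpace {x : Fin 3 → ℂ | eval x p = 0} ∧
      (∃ a, IsSing {x | eval x p = 0} a ∧
        ∃ U ∈ 𝓝 a, ∀ b ∈ U, IsSing {x | eval x p = 0} b → b = a) ∧
      ∀ φ : MvPolynomial (Fin 3) ℂ ≃ₐ[ℂ] MvPolynomial (Fin 3) ℂ, ¬ QuasiHom (φ p) := by
  refine ⟨Pool.Agent.H33.QH.P, Pool.Agent.H33.QH.irred_P, Pool.Agent.H33.QH.contr_P, ?_, ?_⟩
  · refine ⟨![0, 0, 0], (sing_iff _).2 (Or.inl rfl), {![1, 0, 0]}ᶜ, ?_, ?_⟩
    · refine isOpen_compl_singleton.mem_nhds fun h => ?_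
      have := congrFun (Set.mem_singleton_iff.1 h) 0
      simp at this
    · intro b hb hs
      exact ((sing_iff b).1 hs).resolve_right hb
  · rintro φ ⟨w, hw, d, h⟩
    exact Pool.Agent.H33.QH.not_qh φ w hw d h

end Pool.Agent.Results.MP_c4712b_ag.TwoNodes3
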